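import Mathlib
import Pool.Agent.W403.EP.SB

/-!
# MP_41f445_an: extreme points of weak approximate equivalence classes of homomorphisms

There are a separable unital C*-algebra `A` and a separable McDuff II_1 factor `M` such that
`Hom_w(A, M)` is nonempty and has no extreme point.

The factor `M` is the tensor product of the group von Neumann algebra of a countable ICC group that
contains `Γ = EL_3(F_9[X][ε])` (`ε² = 0`) and of the hyperfinite factor.  The group `Γ` has property
(T) and an infinite central subgroup `V ≅ F_9[X]`.  By property (T) only countably many characters
of `V` are restrictions of homomorphisms of `Γ` to the unitary group of `M` that are scalar on `V`.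
The algebra `A` is generated by a unitary representation of `Γ` in `M` whose spectrum on `V` avoids
these countably many characters.  Hence for every unital homomorphism `π : A → M` the image of `π`
contains a nontrivial projection that is central in the image, and such a class is a convex
combination of two classes with weights `1/2` the first of which is different from it.
-/

set_option autoImplicit false

namespace Pool.Agent.Results.MP_41f445_an.NoExtremePoints

open Pool.Agent.W403.EP.S
open Pool.Agent.H504R3.S (Str)

/-- There are a separable unital C*-algebra `A` and a separable McDuff II_1 factor `M` such that
`Hom_w(A, M)` is nonempty and has no extreme point (for every isomorphism `σ` of `M ⊗ R` onto `M`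
with `σ ∘ (id ⊗ 1) ∼ id`, and every choice of projections of `R`, that define the convex
structure). -/
theorem result : ∃ (A : Type) (_ : CStarAlgebra A) (_ : TopologicalSpace.SeparableSpace A)
    (M : Str), IsMcDuff M ∧ Nonempty (HomW A M) ∧
    ∀ (R : Str) (s : Sig M R), R.IsHyperfinite →
      Nonempty (Choice R) ∧ ∀ (c : Choice R) (x : HomW A M), ¬ s.IsExt c x :=
  main

end Pool.Agent.Results.MP_41f445_an.NoExtremePoints
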